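import Pool.Agent.MWGP.Stmts

/-!
# Block MWGP, row EDG: the edges of M1
-/

set_option autoImplicit false

namespace Pool.Agent.MWGP.H81

open Pool.Agent.Helper14_MV Pool.Agent.Helper2_MV Pool.Agent.MVO Pool.Agent.MWL Pool.Agent.MWS
  Pool.Agent.MWH

theorem eg_nil {β : FIC} {k : ℕ} {a b : ℕ → ℕ} {i : ℕ} {s s' : Stt} (h : Tr β k a b i s s') :
    Eg β k a b i s s' := by
  refine ⟨[], fun e he => absurd he (List.not_mem_nil), fun θ hle _ => ⟨fun _ e he => ?_, fun _ => ?_⟩⟩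
  · exact absurd he (List.not_mem_nil)
  · exact hle _ _ h

theorem edg (hEDV : MWHP.EdvStmt) (hNRG : NrgStmt) (hHHG : HhgStmt) (hRDG : RdgStmt) :
    EdgStmt := by
  intro n β hβ
  refine hEDV n β hβ.toBaseH ?_
  intro k a b i hV hNa hNb
  have ga : Gm k a := hNRG n β hβ k a hNa
  have gb : Gm k b := hNRG n β hβ k b hNb
  refine ⟨fun ha1 hb1 => (hRDG n β hβ k a b i hV ga gb ha1).1 hb1, fun hb2 => ?_⟩
  by_cases ha1 : a i = 1
  · exact (hRDG n β hβ k a b i hV ga gb ha1).2 hb2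
  · have ha2 : 2 ≤ a i := by
      have := hV.ai
      omega
    have hT := hHHG n β hβ k a b i hV ha2 hb2
    have hx : Vs a b i Stt.xy := fun h => absurd h (by decide)
    have hy : Vs a b i Stt.yx := fun h => absurd h (by decide)
    have ho : Vs a b i Stt.ov := fun _ => Or.inl ha2
    exact ⟨eg_nil (hT _ _ hx ho), eg_nil (hT _ _ hy ho)⟩

end Pool.Agent.MWGP.H81
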